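import Mathlib

set_option autoImplicit false

open MvPolynomial

namespace Pool.Agent.Results.MP_d985a5_al.NotRealized

/-- The v-number: least degree of a homogeneous `f` with `(I : f)` prime. -/
noncomputable def vnum {K : Type*} [Field K] {n : ℕ} (I : Ideal (MvPolynomial (Fin n) K)) : ℕ :=
  sInf {e | ∃ f : MvPolynomial (Fin n) K, f.IsHomogeneous e ∧ (I.colon {f}).IsPrime}

/-- Regularity: least `r` such that `I` has a graded free resolution whose `i`-th module is
generated in degrees at most `r + i`. -/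
noncomputable def reg {K : Type*} [Field K] {n : ℕ} (I : Ideal (MvPolynomial (Fin n) K)) : ℕ :=
  sInf {r | ∃ (m : ℕ → ℕ) (deg : ∀ i, Fin (m i) → ℕ) (g : Fin (m 0) → MvPolynomial (Fin n) K)
    (d : ∀ i, Matrix (Fin (m i)) (Fin (m (i + 1))) (MvPolynomial (Fin n) K)),
    (∀ i j, deg i j ≤ r + i) ∧ (∀ j, (g j).IsHomogeneous (deg 0 j)) ∧
    (∀ i a b, d i a b = 0 ∨ ∃ e, (d i a b).IsHomogeneous e ∧ deg i a + e = deg (i + 1) b) ∧
    Ideal.span (Set.range g) = I ∧ Function.Exact (d 0).mulVec (fun v => g ⬝ᵥ v) ∧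
    ∀ i, Function.Exact (d (i + 1)).mulVec (d i).mulVec}

theorem ker_eq {K : Type*} [Field K] {n : ℕ} (A : Set (Fin n)) [DecidablePred (· ∈ A)] :
    RingHom.ker (aeval (R := K) fun i => if i ∈ A then (0 : MvPolynomial (Fin n) K) else X i) =
      Ideal.span (X '' A) := by
  apply le_antisymm
  · intro f hf
    have : ∀ f : MvPolynomial (Fin n) K,
        f - aeval (R := K) (fun i => if i ∈ A then (0 : MvPolynomial (Fin n) K) else X i) f ∈
          Ideal.span (X '' A) := by
      intro f
      rw [← Ideal.Quotient.eq]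
      induction f using MvPolynomial.induction_on with
      | C a => simp
      | add p q hp hq => simp only [map_add, hp, hq]
      | mul_X p i hp =>
        simp only [map_mul, ← hp, aeval_X]
        split_ifs with h
        · rw [Ideal.Quotient.eq_zero_iff_mem.2 (Ideal.subset_span (Set.mem_image_of_mem X h)), map_zero]
        · rfl
    have h := this f
    rwa [RingHom.mem_ker.1 hf, sub_zero] at h
  · rw [Ideal.span_le]
    rintro _ ⟨i, hi, rfl⟩
    simp [hi]

theorem vnum_le {K : Type*} [Field K] {n : ℕ} (A : Set (Fin n)) (k : ℕ) :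
    vnum (Ideal.span (X '' A) ^ (k + 1) : Ideal (MvPolynomial (Fin n) K)) ≤ k := by
  classical
  have hP : (Ideal.span (X '' A) : Ideal (MvPolynomial (Fin n) K)).IsPrime :=
    ker_eq (K := K) A ▸ RingHom.ker_isPrime _
  rcases A.eq_empty_or_nonempty with rfl | ⟨a, ha⟩
  · refine le_trans (Nat.sInf_le ⟨1, isHomogeneous_one _ _, ?_⟩) k.zero_le
    convert hP using 1
    ext f
    simp [Submodule.mem_colon_singleton]
  refine Nat.sInf_le ⟨X a ^ k, by simpa using (isHomogeneous_X K a).pow k, ?_⟩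
  convert hP using 1
  ext f
  rw [Submodule.mem_colon_singleton, smul_eq_mul]
  refine ⟨fun h => ?_, fun h => ?_⟩
  · let ψ : MvPolynomial (Fin n) K →ₐ[K] Polynomial (MvPolynomial (Fin n) K) :=
      aeval fun i => if i ∈ A then Polynomial.X * Polynomial.C (X i) else Polynomial.C (X i)
    have h1 : Ideal.map ψ (Ideal.span (X '' A)) ≤ Ideal.span {Polynomial.X} := by
      rw [Ideal.map_le_iff_le_comap, Ideal.span_le]
      rintro _ ⟨i, hi, rfl⟩
      simp [ψ, hi, Ideal.mem_span_singleton]
    have h2 := Ideal.pow_right_mono h1 (k + 1) (Ideal.map_pow ψ _ _ ▸ Ideal.mem_map_of_mem ψ h)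
    rw [Ideal.span_singleton_pow, Ideal.mem_span_singleton, map_mul, map_pow] at h2
    simp only [ψ, aeval_X, if_pos ha] at h2
    rw [mul_pow, pow_succ', ← mul_assoc, mul_right_comm,
      mul_dvd_mul_iff_right (pow_ne_zero _ Polynomial.X_ne_zero), Polynomial.X_dvd_iff,
      Polynomial.mul_coeff_zero, ← map_pow, Polynomial.coeff_C_zero, mul_eq_zero,
      or_iff_left (pow_ne_zero _ (X_ne_zero a))] at h2
    rw [← ker_eq, RingHom.mem_ker]
    refine Eq.trans ?_ h2
    clear h h2
    induction f using MvPolynomial.induction_on with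
    | C a => simp
    | add p q hp hq => simp only [map_add, hp, hq, Polynomial.coeff_add]
    | mul_X p i hp =>
      simp only [map_mul, hp, aeval_X, Polynomial.mul_coeff_zero]
      split_ifs <;> simp
  · rw [pow_succ']
    exact Ideal.mul_mem_mul h (Ideal.pow_mem_pow (Ideal.subset_span (Set.mem_image_of_mem X ha)) k)

/-- The quadruples `(1, b, 1, d)` with `b ≥ 0` are not realised by monomial ideals. -/
theorem result (K : Type*) [Field K] (b d n : ℕ) (s : Set (Fin n →₀ ℕ))
    (I : Ideal (MvPolynomial (Fin n) K)) (hI : I = Ideal.span ((monomial · 1) '' s))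
    (hp : I ≠ ⊤) : ¬ ∃ k₀, ∀ k ≥ k₀, vnum (I ^ k) = k + b ∧ reg (I ^ k) = k + d := by
  classical
  rintro ⟨k₀, h⟩
  obtain ⟨h1, h2⟩ := h (k₀ + d + 1) (by omega)
  generalize hk : k₀ + d = k at h1 h2
  obtain ⟨m, deg, g, -, hd, hg, -, hs, -⟩ :=
    Nat.sInf_mem (Nat.nonempty_of_pos_sInf (lt_of_lt_of_eq (by omega) h2.symm))
  let A : Set (Fin n) := {i | X i ∈ I}
  let φ := aeval (R := K) fun i => if i ∈ A then (0 : MvPolynomial (Fin n) K) else X i
  have hφ : ∀ t : Fin n →₀ ℕ, φ (monomial t 1) = 0 ∨ φ (monomial t 1) = monomial t 1 := by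
    intro t
    by_cases ht : ∃ i ∈ t.support, i ∈ A
    · obtain ⟨i, hi, hA⟩ := ht
      left
      rw [aeval_monomial, Finsupp.prod, Finset.prod_eq_zero hi, mul_zero]
      simp [hA, Finsupp.mem_support_iff.1 hi]
    · right
      push Not at ht
      rw [aeval_monomial, monomial_eq, Finsupp.prod, Finsupp.prod, map_one, map_one]
      exact congrArg _ (Finset.prod_congr rfl fun i hi => by rw [if_neg (ht i hi)])
  have h3 : Ideal.map φ I ≤ idealOfVars (Fin n) K ^ 2 := by
    rw [Ideal.map_le_iff_le_comap]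
    refine hI.le.trans (Ideal.span_le.2 ?_)
    rintro _ ⟨t, ht, rfl⟩
    have ht : monomial t (1 : K) ∈ I := hI ▸ Ideal.subset_span ⟨t, ht, rfl⟩
    change φ (monomial t 1) ∈ idealOfVars (Fin n) K ^ 2
    by_cases h0 : t.degree = 0
    · rw [Finsupp.degree_eq_zero_iff] at h0
      subst h0
      exact absurd ((Ideal.eq_top_iff_one _).2 ht) hp
    by_cases h1 : t.degree = 1
    · obtain ⟨i, rfl⟩ := (Finsupp.sum_eq_one_iff t).1 h1
      have : i ∈ A := ht
      change φ (X i) ∈ _
      simp [φ, this]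
    rcases hφ t with e | e <;> rw [e]
    · exact zero_mem _
    · rw [monomial_mem_pow_idealOfVars_iff _ _ one_ne_zero]
      omega
  have h4 : I ^ (k + 1) ≤ RingHom.ker φ := by
    rw [← hs, Ideal.span_le]
    rintro _ ⟨j, rfl⟩
    have h5 := Ideal.pow_right_mono h3 (k + 1) (Ideal.map_pow φ _ _ ▸ Ideal.mem_map_of_mem φ
      (hs ▸ Ideal.subset_span ⟨j, rfl⟩ : g j ∈ I ^ (k + 1)))
    rw [← pow_mul, mem_pow_idealOfVars_iff'] at h5
    have h6 : (φ (g j)).IsHomogeneous (1 * deg 0 j) := (hg j).aeval _ fun i => by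
      split_ifs
      exacts [isHomogeneous_zero _ _ _, isHomogeneous_X K i]
    change φ (g j) = 0
    ext t
    by_cases ht : t.degree = 1 * deg 0 j
    · refine h5 t ?_
      have := hd 0 j
      change _ ≤ reg (I ^ (k + 1)) + 0 at this
      omega
    · exact h6.coeff_eq_zero ht
  have h5 : I = Ideal.span (X '' A) := by
    apply le_antisymm
    · rw [← ker_eq]
      exact (RingHom.ker_isPrime φ).le_of_pow_le h4
    · rw [Ideal.span_le]
      rintro _ ⟨i, hi, rfl⟩
      exact hi
  have := vnum_le (K := K) A k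
  rw [← h5] at this
  omega

end Pool.Agent.Results.MP_d985a5_al.NotRealized
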